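import Mathlib

set_option autoImplicit false

namespace Pool.Agent.Results.MP_7dcdb2_al.NoExtension

open Matrix

/-- The real quaternions. -/
abbrev Q := Quaternion ℝ

/-- Right `ℍ`-subspaces of the column space `ℍ^n`. -/
abbrev RSub (n : ℕ) := Submodule Qᵐᵒᵖ (Fin n → Q)

/-- The real number `[x, x] = x^* H x` (its real part; it is real for hermitian `H`). -/
noncomputable def form {n : ℕ} (H : Matrix (Fin n) (Fin n) Q) (x : Fin n → Q) : ℝ :=
  (star x ⬝ᵥ (H *ᵥ x)).re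

/-- `S^* H S = I_p ⊕ (-I_q) ⊕ 0_ν` for an invertible `S`. -/
def Inertia {n : ℕ} (H : Matrix (Fin n) (Fin n) Q) (p q ν : ℕ) : Prop :=
  p + q + ν = n ∧ ∃ S T : Matrix (Fin n) (Fin n) Q, S * T = 1 ∧ T * S = 1 ∧
    Sᴴ * H * S = diagonal fun i : Fin n =>
      if (i : ℕ) < p then 1 else if (i : ℕ) < p + q then -1 else 0

/-- `M` is `H`-nonnegative. -/
def Nonneg {n : ℕ} (H : Matrix (Fin n) (Fin n) Q) (M : RSub n) : Prop :=
  ∀ x ∈ M, 0 ≤ form H x

/-- `A` is an `H`-plus-matrix. -/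
def Plus {n : ℕ} (H A : Matrix (Fin n) (Fin n) Q) : Prop :=
  ∀ x, 0 ≤ form H x → 0 ≤ form H (A *ᵥ x)

/-- `M` is `A`-invariant. -/
def Inv {n : ℕ} (A : Matrix (Fin n) (Fin n) Q) (M : RSub n) : Prop := ∀ x ∈ M, A *ᵥ x ∈ M

/-- The hermitian matrix `diag(1, -1, 0)`. -/
noncomputable def H0 : Matrix (Fin 3) (Fin 3) Q := diagonal ![1, -1, 0]

/-- The matrix sending `e₃` to `e₁` and `e₁, e₂` to `0`. -/
noncomputable def A0 : Matrix (Fin 3) (Fin 3) Q := !![0, 0, 1; 0, 0, 0; 0, 0, 0]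

lemma form_H0 (x : Fin 3 → Q) :
    form H0 x = Quaternion.normSq (x 0) - Quaternion.normSq (x 1) := by
  have e : star x ⬝ᵥ (H0 *ᵥ x) = star (x 0) * x 0 - star (x 1) * x 1 := by
    simp [H0, dotProduct, Fin.sum_univ_three, mulVec_diagonal, sub_eq_add_neg]
  rw [form, e, Quaternion.star_mul_self, Quaternion.star_mul_self]
  simp

lemma A0_ap (x : Fin 3 → Q) : A0 *ᵥ x = ![x 2, 0, 0] := by
  funext i
  fin_cases i <;> simp [A0, mulVec, dotProduct, Fin.sum_univ_three]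

lemma zero_of (a : Q) (h : 0 ≤ Quaternion.normSq (0 : Q) - Quaternion.normSq a) : a = 0 := by
  have h1 : Quaternion.normSq a ≤ 0 := by simpa using h
  exact Quaternion.normSq_eq_zero.1 (le_antisymm h1 Quaternion.normSq_nonneg)

theorem result : ∃ (n p q ν : ℕ) (H A : Matrix (Fin n) (Fin n) Q) (M₀ : RSub n),
    H.IsHermitian ∧ Inertia H p q ν ∧ 0 < ν ∧ Plus H A ∧ Inv A M₀ ∧ Nonneg H M₀ ∧
      ¬ ∃ M : RSub n, M₀ ≤ M ∧ Inv A M ∧ Nonneg H M ∧ Module.finrank Qᵐᵒᵖ M = p + ν := by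
  have sm : ∀ c : Qᵐᵒᵖ, c • (![1, 1, 0] : Fin 3 → Q) = ![c.unop, c.unop, 0] := by
    intro c
    funext i
    fin_cases i <;> simp [MulOpposite.smul_eq_mul_unop]
  refine ⟨3, 1, 1, 1, H0, A0, Submodule.span Qᵐᵒᵖ {![1, 1, 0]}, ?_, ⟨rfl, 1, 1, by simp, by simp, ?_⟩,
    one_pos, ?_, ?_, ?_, ?_⟩
  · rw [H0, isHermitian_diagonal_iff]
    intro i
    fin_cases i <;> simp [IsSelfAdjoint]
  · rw [conjTranspose_one, Matrix.one_mul, Matrix.mul_one, H0]
    congr 1
    funext i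
    fin_cases i <;> simp
  · intro x _
    rw [form_H0, A0_ap]
    simpa using Quaternion.normSq_nonneg
  · intro x hx
    obtain ⟨c, rfl⟩ := Submodule.mem_span_singleton.1 hx
    rw [A0_ap, sm]
    have : (![(![c.unop, c.unop, 0] : Fin 3 → Q) 2, 0, 0] : Fin 3 → Q) = 0 := by
      funext i
      fin_cases i <;> simp
    rw [this]
    exact zero_mem _
  · intro x hx
    obtain ⟨c, rfl⟩ := Submodule.mem_span_singleton.1 hx
    rw [form_H0, sm]
    simp
  · rintro ⟨M, hle, hinv, hnn, hdim⟩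
    have hv : ∀ a : Q, (![a, a, 0] : Fin 3 → Q) ∈ M := by
      intro a
      have := M.smul_mem (MulOpposite.op a) (hle (Submodule.mem_span_singleton_self _))
      rwa [sm] at this
    have hM : M = Submodule.span Qᵐᵒᵖ {![1, 1, 0]} := by
      refine le_antisymm (fun x hx => ?_) hle
      have h1 := hnn _ (sub_mem hx (hv (x 0)))
      rw [form_H0] at h1
      have e1 : x 1 - x 0 = 0 := zero_of _ (by simpa using h1)
      have h2 := hnn _ (sub_mem (hv (x 2)) (hinv x hx))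
      rw [form_H0, A0_ap] at h2
      have e2 : x 2 = 0 := zero_of _ (by simpa using h2)
      refine Submodule.mem_span_singleton.2 ⟨MulOpposite.op (x 0), ?_⟩
      rw [sm]
      funext i
      fin_cases i
      · simp
      · simpa using (sub_eq_zero.1 e1).symm
      · simpa using e2.symm
    have hne : (![1, 1, 0] : Fin 3 → Q) ≠ 0 := fun h => by simpa using congrFun h 0
    rw [hM, finrank_span_singleton hne] at hdim
    omega

end Pool.Agent.Results.MP_7dcdb2_al.NoExtension
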